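import Pool.Agent.Y219.CQ.LA
import Pool.Agent.Y697.PQ.Jt
import Pool.Agent.Y839.CQ.SYM
import Pool.Agent.Y948.CQ.C2

/-!
# The joint version of project CQ: the linear algebra with masks
-/

set_option autoImplicit false

open scoped Classical

namespace Pool.Agent.Y697.CJ

open Finset Module Function
open Pool.Agent.Y703.CQ (prs GdA c2)
open Pool.Agent.Y219.CQ (F bf bf_apply bf_symm bf_add bf_single Gs mf mf_apply mA mC mZ mL pa pa_surj
  gd_iff zx zx_of zx_not sum_zx mZ_symm mL_symm bf_l bf_r all_zero)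
open Pool.Agent.Y697.PQ (JJ mem_JJ thmJ gi)
open Pool.Agent.Y697.PP (YY mem_YY)

section mask

variable {U J : Type} [Fintype U] [Fintype J]

/-- the block system with a mask -/
def GdM (U1 : Finset U) (J1 : Finset J) (m : Finset U)
    (A : U → U → ZMod 2) (B : U → J → ZMod 2) (C : J → U → ZMod 2) (R : J → J → ZMod 2)
    (f : U → ZMod 2) (g : J → ZMod 2) : Prop :=
  GdA (U1 ∩ m) J1 (fun u v => if v ∈ m then A u v else 0) B
    (fun k u => if u ∈ m then C k u else 0) R f g

/-- the masked blocks -/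
noncomputable def Am (m : Finset U) (A : U → U → F) (u v : U) : F :=
  if u ∈ m ∧ v ∈ m then A u v else 0

/-- the masked blocks -/
noncomputable def Bm (m : Finset U) (B : U → J → F) (u : U) (l : J) : F := if u ∈ m then B u l else 0

/-- the masked blocks -/
noncomputable def Cm (m : Finset U) (C : J → U → F) (k : J) (u : U) : F := if u ∈ m then C k u else 0

/-- the masked blocks -/
noncomputable def fm (m : Finset U) (f : U → F) (u : U) : F := if u ∈ m then f u else 1

theorem gdM_iff (U1 : Finset U) (J1 : Finset J) (m : Finset U) (A : U → U → F) (B : U → J → F)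
    (C : J → U → F) (R : J → J → F) (f : U → F) (g : J → F) :
    GdM U1 J1 m A B C R f g ↔ GdA U1 J1 (Am m A) (Bm m B) (Cm m C) R (fm m f) g := by
  have e1 : ∀ u ∈ m, ∀ x : U → F, ∀ y : J → F,
      ∑ v, Am m A u v * (x v + x u) + ∑ l, Bm m B u l * (y l + x u) + fm m f u * x u =
      ∑ v, (if v ∈ m then A u v else 0) * (x v + x u) + ∑ l, B u l * (y l + x u) + f u * x u := by
    intro u hu x y
    unfold Am Bm fm
    simp only [hu, true_and, if_true]
  have e2 : ∀ u, u ∉ m → ∀ x : U → F, ∀ y : J → F,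
      ∑ v, Am m A u v * (x v + x u) + ∑ l, Bm m B u l * (y l + x u) + fm m f u * x u = x u := by
    intro u hu x y
    unfold Am Bm fm
    simp only [hu, false_and, if_false, zero_mul, sum_const_zero, zero_add, one_mul]
  constructor
  · intro h x y hx hy h1 h2
    refine h x y ?_ hy ?_ h2
    · intro u hu
      by_cases hu1 : u ∈ U1
      · have hum : u ∉ m := fun h' => hu (mem_inter.2 ⟨hu1, h'⟩)
        rw [← e2 u hum x y]
        exact h1 u hu1
      · exact hx u hu1
    · intro u hu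
      rw [mem_inter] at hu
      rw [← e1 u hu.2 x y]
      exact h1 u hu.1
  · intro h x y hx hy h1 h2
    refine h x y (fun u hu => hx u fun h' => hu (mem_inter.1 h').1) hy ?_ h2
    intro u hu
    by_cases hum : u ∈ m
    · rw [e1 u hum x y]
      exact h1 u (mem_inter.2 ⟨hu, hum⟩)
    · rw [e2 u hum x y]
      exact hx u fun h' => hum (mem_inter.1 h').2

end mask

section abs

variable {V X : Type} [AddCommGroup V] [Module F V] [Finite V] [AddCommGroup X] [Module F X]
  [Finite X]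

theorem mf_add (A : X →ₗ[F] X →ₗ[F] F) (c : X →ₗ[F] V →ₗ[F] F) (S T : V →ₗ[F] V →ₗ[F] F) :
    mf A c (S + T) = mf A c S + mf 0 0 T := by
  refine LinearMap.ext fun x => LinearMap.ext fun y => ?_
  show mf A c (S + T) x y = mf A c S x y + mf (0 : X →ₗ[F] X →ₗ[F] F) 0 T x y
  rw [mf_apply, mf_apply, mf_apply]
  simp only [LinearMap.zero_apply, LinearMap.add_apply, zero_add]
  abel

theorem gs_iff_nd (A : X →ₗ[F] X →ₗ[F] F) (c : X →ₗ[F] V →ₗ[F] F) (S : V →ₗ[F] V →ₗ[F] F) :
    Gs A c S ↔ Pool.Agent.Y697.PP.Nd (mf A c S : LinearMap.BilinForm (ZMod 2) (X × V)) ⊤ := by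
  constructor
  · rintro h ⟨x, y⟩ _ hw
    have h1 : ∀ w' : X × V, A x w'.1 + c x w'.2 + c w'.1 y + S y w'.2 = 0 := by
      intro w'
      have := LinearMap.congr_fun hw w'
      rw [mf_apply] at this
      exact this
    obtain ⟨hx, hy⟩ := h x y (fun x' => by
      have := h1 (x', 0)
      simpa using this) (fun y' => by
      have := h1 (0, y')
      simpa using this)
    exact Prod.ext hx hy
  · intro h x y h1 h2
    have h3 := h (x, y) trivial (by
      refine LinearMap.ext fun w' => ?_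
      rw [mf_apply, LinearMap.zero_apply]
      have e1 := h1 w'.1
      have e2 := h2 w'.2
      show A x w'.1 + c x w'.2 + c w'.1 y + S y w'.2 = 0
      linear_combination e1 + e2)
    exact ⟨congrArg Prod.fst h3, congrArg Prod.snd h3⟩

theorem mf_symm (A : X →ₗ[F] X →ₗ[F] F) (c : X →ₗ[F] V →ₗ[F] F) (S : V →ₗ[F] V →ₗ[F] F)
    (hA : ∀ x y, A x y = A y x) (hS : ∀ x y, S x y = S y x) (w w' : X × V) :
    mf A c S w w' = mf A c S w' w := by
  rw [mf_apply, mf_apply, hA w.1, hS w.2]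
  ring

/-- the forms on the second factor -/
theorem yy_card [Fintype V] [Fintype X] (P : LinearMap.BilinForm (ZMod 2) (X × V) → Prop) :
    (((YY (LinearMap.ker (LinearMap.snd (ZMod 2) X V))).filter P).card : ℝ) /
      ((YY (LinearMap.ker (LinearMap.snd (ZMod 2) X V))).card : ℝ) =
    Pool.Agent.Y759.CX.fr (fun S : Pool.Agent.Y219.CQ.Sy V => P (mf 0 0 S.1)) := by
  have hinj : ∀ S T : Pool.Agent.Y219.CQ.Sy V,
      (mf 0 0 S.1 : (X × V) →ₗ[F] (X × V) →ₗ[F] F) = mf 0 0 T.1 → S = T := by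
    intro S T h
    refine Subtype.ext (LinearMap.ext fun x => LinearMap.ext fun y => ?_)
    have h1 := LinearMap.congr_fun (LinearMap.congr_fun h (0, x)) (0, y)
    rw [mf_apply, mf_apply] at h1
    simpa using h1
  have hmem : ∀ S : Pool.Agent.Y219.CQ.Sy V,
      (mf 0 0 S.1 : (X × V) →ₗ[F] (X × V) →ₗ[F] F) ∈ YY (LinearMap.ker (LinearMap.snd (ZMod 2) X V)) := by
    intro S
    rw [mem_YY]
    refine ⟨fun w w' => mf_symm 0 0 S.1 (fun _ _ => rfl) S.2 w w', fun w hw => ?_⟩
    have hw' : w.2 = 0 := hw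
    refine LinearMap.ext fun w' => ?_
    rw [mf_apply, hw']
    simp
  have hsurj : ∀ Y ∈ YY (LinearMap.ker (LinearMap.snd (ZMod 2) X V)),
      ∃ S : Pool.Agent.Y219.CQ.Sy V, (mf 0 0 S.1 : (X × V) →ₗ[F] (X × V) →ₗ[F] F) = Y := by
    intro Y hY
    rw [mem_YY] at hY
    refine ⟨⟨Y.compl₁₂ (LinearMap.inr F X V) (LinearMap.inr F X V), fun x y => hY.1 _ _⟩, ?_⟩
    refine LinearMap.ext fun w => LinearMap.ext fun w' => ?_
    rw [mf_apply]
    have e1 : ∀ x : X, Y (x, 0) = 0 := fun x => hY.2 _ (by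
      rw [LinearMap.mem_ker]
      rfl)
    have e3 : ∀ w : X × V, Y w = Y (0, w.2) := by
      intro w
      have h1 : w = (w.1, 0) + (0, w.2) := by
        refine Prod.ext ?_ ?_
        · simp
        · simp
      conv_lhs => rw [h1]
      rw [map_add, e1, zero_add]
    have e2 : Y w w' = Y (0, w.2) (0, w'.2) := by
      rw [e3 w, hY.1 (0, w.2) w', e3 w', hY.1]
    rw [e2]
    simp only [LinearMap.zero_apply, zero_add]
    rfl
  let e : Pool.Agent.Y219.CQ.Sy V ≃ {Y // Y ∈ YY (LinearMap.ker (LinearMap.snd (ZMod 2) X V))} :=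
    Equiv.ofBijective (fun S => ⟨mf 0 0 S.1, hmem S⟩)
      ⟨fun S T h => hinj _ _ (congrArg Subtype.val h), fun Y => by
        obtain ⟨S, hS⟩ := hsurj Y.1 Y.2
        exact ⟨S, Subtype.ext hS⟩⟩
  have h1 : Nat.card {S : Pool.Agent.Y219.CQ.Sy V // P (mf 0 0 S.1)} =
      ((YY (LinearMap.ker (LinearMap.snd (ZMod 2) X V))).filter P).card := by
    rw [← Fintype.card_coe, ← Nat.card_eq_fintype_card]
    refine Nat.card_congr ((e.subtypeEquiv (q := fun Y => P Y.1) fun S => Iff.rfl).trans ?_)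
    exact {
      toFun := fun Y => ⟨Y.1.1, Finset.mem_filter.2 ⟨Y.1.2, Y.2⟩⟩
      invFun := fun Y => ⟨⟨Y.1, (Finset.mem_filter.1 Y.2).1⟩, (Finset.mem_filter.1 Y.2).2⟩
      left_inv := fun _ => rfl
      right_inv := fun _ => rfl }
  have h2 : Nat.card (Pool.Agent.Y219.CQ.Sy V) =
      (YY (LinearMap.ker (LinearMap.snd (ZMod 2) X V))).card := by
    rw [Nat.card_congr e, Nat.card_eq_fintype_card, Fintype.card_coe]
  unfold Pool.Agent.Y759.CX.fr
  rw [h1, h2]

end abs

section main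

variable {U J : Type} [Fintype U] [Fintype J] [LinearOrder J]

/-- the form of the masked system -/
noncomputable def BM (U1 : Finset U) (J1 : Finset J) (m : Finset U)
    (A : U → U → F) (B : U → J → F) (C : J → U → F) (f : U → F) (g : J → F) :
    LinearMap.BilinForm (ZMod 2) ((U1 → F) × (J1 → F)) :=
  mf (bf (mA U1 (Am m A) (Bm m B) (fm m f))) (bf (mC U1 J1 (Cm m C))) (bf (mZ J1 (Cm m C) g))

theorem Am_symm {U1 m : Finset U} {A : U → U → F} (hA : ∀ u ∈ U1, ∀ v ∈ U1, A u v = A v u) :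
    ∀ u ∈ U1, ∀ v ∈ U1, Am m A u v = Am m A v u := by
  intro u hu v hv
  unfold Am
  rw [hA u hu v hv]
  exact if_congr and_comm rfl rfl

theorem Bm_eq {U1 m : Finset U} {J1 : Finset J} {B : U → J → F} {C : J → U → F}
    (hB : ∀ u ∈ U1, ∀ k ∈ J1, B u k = C k u) : ∀ u ∈ U1, ∀ k ∈ J1, Bm m B u k = Cm m C k u := by
  intro u hu k hk
  unfold Bm Cm
  rw [hB u hu k hk]

theorem mA_symm' (U1 : Finset U) (A : U → U → F) (B : U → J → F) (f : U → F)
    (hA : ∀ u ∈ U1, ∀ v ∈ U1, A u v = A v u) (u v : U1) :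
    mA U1 A B f u v = mA U1 A B f v u := by
  unfold Pool.Agent.Y219.CQ.mA
  by_cases huv : u = v
  · rw [huv]
  · rw [if_neg huv, if_neg (Ne.symm huv), hA u u.2 v v.2]

theorem BM_symm (U1 : Finset U) (J1 : Finset J) (m : Finset U)
    (A : U → U → F) (B : U → J → F) (C : J → U → F) (f : U → F) (g : J → F)
    (hA : ∀ u ∈ U1, ∀ v ∈ U1, A u v = A v u) : Pool.Agent.Y697.PP.Sy (BM U1 J1 m A B C f g) := by
  intro w w'
  exact mf_symm _ _ _ (bf_symm _ (mA_symm' U1 _ _ _ (Am_symm hA))) (bf_symm _ (mZ_symm J1 _ g)) w w'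

/-- the good system -/
theorem gdM_nd (U1 : Finset U) (J1 : Finset J) (m : Finset U)
    (A : U → U → F) (B : U → J → F) (C : J → U → F) (f : U → F) (g : J → F)
    (hA : ∀ u ∈ U1, ∀ v ∈ U1, A u v = A v u) (hB : ∀ u ∈ U1, ∀ k ∈ J1, B u k = C k u)
    (α : prs J1 → F) : GdM U1 J1 m A B C (Pool.Agent.Y703.CQ.ext α) f g ↔
      Pool.Agent.Y697.PP.Nd (BM U1 J1 m A B C f g + mf 0 0 (pa J1 α).1) ⊤ := by
  rw [gdM_iff, gd_iff U1 J1 _ _ _ _ g (Am_symm hA) (Bm_eq hB) α, gs_iff_nd]
  have h1 : (bf fun k l => mL J1 α k l + mZ J1 (Cm m C) g k l) =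
      bf (mZ J1 (Cm m C) g) + bf (mL J1 α) := by
    rw [← bf_add]
    congr 1
    funext k l
    exact add_comm _ _
  rw [h1, mf_add]
  exact Iff.rfl

theorem nd_BM {U1 : Finset U} {J1 : Finset J} (m : Finset U)
    {A : U → U → F} {B : U → J → F} {C : J → U → F} {f : U → F} {g : J → F}
    (hC : ∀ w : U → ZMod 2, (∀ u, u ∉ U1 → w u = 0) → (∃ u, w u ≠ 0) →
      ∃ k ∈ J1, ∑ u, w u * C k u ≠ 0) :
    Pool.Agent.Y697.PP.Nd (BM U1 J1 m A B C f g)
      (LinearMap.ker (LinearMap.snd (ZMod 2) (U1 → F) (J1 → F))) := by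
  rintro ⟨x, y⟩ hw h0
  have hy : y = 0 := hw
  subst hy
  have h1 : ∀ w' : (U1 → F) × (J1 → F), bf (mA U1 (Am m A) (Bm m B) (fm m f)) x w'.1 +
      bf (mC U1 J1 (Cm m C)) x w'.2 = 0 := by
    intro w'
    have h2 := LinearMap.congr_fun h0 w'
    unfold BM at h2
    rw [mf_apply] at h2
    simpa using h2
  have h3 : ∀ k : J1, ∑ u : U1, x u * Cm m C k u = 0 := by
    refine all_zero _ fun y => ?_
    have h4 := h1 (0, y)
    rw [map_zero, zero_add, bf_l] at h4
    exact h4
  have h5 : ∀ v : U1, ∑ u : U1, x u * mA U1 (Am m A) (Bm m B) (fm m f) u v = 0 := by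
    refine all_zero _ fun y => ?_
    have h4 := h1 (y, 0)
    rw [map_zero, add_zero, bf_l] at h4
    exact h4
  have h6 : ∀ u : U1, (u : U) ∈ m → x u = 0 := by
    by_contra hne
    push Not at hne
    obtain ⟨u0, hu0, hx0⟩ := hne
    obtain ⟨k, hk, hk'⟩ := hC (fun u => if u ∈ m then zx U1 x u else 0)
      (fun u hu => by rw [zx_not U1 x hu, ite_self])
      ⟨u0, by
        rw [if_pos hu0, zx_of]
        exact hx0⟩
    apply hk'
    have h7 : ∑ u : U1, x u * Cm m C k u = ∑ u : U, (Cm m C k u) * zx U1 x u := by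
      rw [sum_zx]
      exact sum_congr rfl fun u _ => mul_comm _ _
    refine Eq.trans ?_ (h3 ⟨k, hk⟩)
    rw [h7]
    refine sum_congr rfl fun u _ => ?_
    unfold Cm
    by_cases hu : u ∈ m
    · rw [if_pos hu, if_pos hu, mul_comm]
    · rw [if_neg hu, if_neg hu, zero_mul, zero_mul]
  have h7 : ∀ u : U1, (u : U) ∉ m → x u = 0 := by
    intro v hv
    have h8 := h5 v
    rw [sum_eq_single v] at h8
    · unfold Pool.Agent.Y219.CQ.mA Am Bm fm at h8
      simp only [hv, false_and, and_false, if_false, sum_const_zero, if_true, zero_add, mul_one] at h8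
      exact h8
    · intro u _ hu
      unfold Pool.Agent.Y219.CQ.mA Am
      rw [if_neg hu, if_neg (fun h => hv h.2), add_zero, mul_zero]
    · intro h
      exact absurd (mem_univ _) h
  refine Prod.ext (funext fun u => ?_) rfl
  by_cases hu : (u : U) ∈ m
  · exact h6 u hu
  · exact h7 u hu

theorem two0' : (2 : F) = 0 := rfl

/-- the difference of the labels -/
def dd (m m' : Finset U) (C : J → U → F) (j : J) : F := ∑ u ∈ m, C j u + ∑ u ∈ m', C j u

theorem sum_Cm (m : Finset U) (C : J → U → F) (j : J) : ∑ u, Cm m C j u = ∑ u ∈ m, C j u := by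
  unfold Cm
  rw [← sum_filter]
  congr 1
  ext u
  simp

theorem finrank_JJ_le {U1 : Finset U} {J1 : Finset J} (m m' : Finset U)
    {A : U → U → F} {B : U → J → F} {C : J → U → F} {f : U → F} {g : J → F} :
    finrank (ZMod 2) (JJ (BM U1 J1 m A B C f g) (BM U1 J1 m' A B C f g)
      (LinearMap.ker (LinearMap.snd (ZMod 2) (U1 → F) (J1 → F)))) ≤
    2 * U1.card + (J1.card - (J1.filter fun j => dd m m' C j ≠ 0).card) := by
  set K := JJ (BM U1 J1 m A B C f g) (BM U1 J1 m' A B C f g)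
      (LinearMap.ker (LinearMap.snd (ZMod 2) (U1 → F) (J1 → F))) with hK
  let φ : K →ₗ[ZMod 2] ((U1 → F) × (U1 → F)) × ({j : J1 // dd m m' C j = 0} → F) :=
    { toFun := fun p => ((p.1.1.1, p.1.2.1), fun j => p.1.1.2 j.1)
      map_add' := fun _ _ => rfl
      map_smul' := fun _ _ => rfl }
  have hinj : Function.Injective φ := by
    rw [← LinearMap.ker_eq_bot, LinearMap.ker_eq_bot']
    rintro ⟨⟨⟨a, y⟩, ⟨b, y'⟩⟩, hp⟩ h0
    have hp' := mem_JJ.1 hp
    have e1 : a = 0 := congrArg (fun z => z.1.1) h0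
    have e2 : b = 0 := congrArg (fun z => z.1.2) h0
    have e3 : ∀ j : J1, dd m m' C j = 0 → y j = 0 := fun j hj =>
      congrFun (congrArg (fun z => z.2) h0) ⟨j, hj⟩
    have e4 : y + y' = 0 := hp'.1
    have e5 : y' = y := by
      funext j
      have := congrFun e4 j
      have h2 : y j + y' j = 0 := this
      linear_combination h2 - (y j) * two0'
    subst e5
    subst e1
    subst e2
    have e6 : ∀ j : J1, y' j = 0 := by
      intro j
      by_cases hj : dd m m' C j = 0
      · exact e3 j hj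
      · have h1 := LinearMap.congr_fun hp'.2.1 (0, Pi.single j 1)
        unfold BM at h1
        simp only at h1
        rw [mf_apply, mf_apply] at h1
        simp only [map_zero, LinearMap.zero_apply, zero_add, bf_r] at h1
        have h2 : ∀ mm : Finset U, ∑ i : J1, (∑ k : J1, mZ J1 (Cm mm C) g i k *
            (Pi.single j (1 : F) : J1 → F) k) * y' i = (∑ u ∈ mm, C j u + g j) * y' j := by
          intro mm
          have h3 : ∀ i : J1, (∑ k : J1, mZ J1 (Cm mm C) g i k *
            (Pi.single j (1 : F) : J1 → F) k) = mZ J1 (Cm mm C) g i j := by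
            intro i
            rw [sum_eq_single j]
            · rw [Pi.single_eq_same, mul_one]
            · intro k _ hk
              rw [Pi.single_eq_of_ne hk, mul_zero]
            · intro h
              exact absurd (mem_univ _) h
          simp only [h3]
          rw [sum_eq_single j]
          · unfold Pool.Agent.Y219.CQ.mZ
            rw [if_pos rfl, sum_Cm]
          · intro i _ hi
            unfold Pool.Agent.Y219.CQ.mZ
            rw [if_neg hi, zero_mul]
          · intro h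
            exact absurd (mem_univ _) h
        rw [h2, h2] at h1
        have h3 : dd m m' C j = 1 := by
          have : ∀ z : F, z ≠ 0 → z = 1 := by decide
          exact this _ hj
        have h4 : y' j * dd m m' C j = 0 := by
          unfold dd
          linear_combination h1 + (y' j * ∑ u ∈ m', C j u) * two0'
        rw [h3, mul_one] at h4
        exact h4
    have e7 : y' = 0 := funext e6
    exact Subtype.ext (Prod.ext (Prod.ext rfl e7) (Prod.ext rfl e7))
  have h1 := LinearMap.finrank_le_finrank_of_injective hinj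
  rw [Module.finrank_prod, Module.finrank_prod, Module.finrank_fintype_fun_eq_card,
    Module.finrank_fintype_fun_eq_card, Fintype.card_coe] at h1
  have h2 : Fintype.card {j : J1 // dd m m' C j = 0} +
      (J1.filter fun j => dd m m' C j ≠ 0).card = J1.card := by
    have h3 : Fintype.card {j : J1 // dd m m' C j = 0} =
        (J1.filter fun j => dd m m' C j = 0).card := by
      rw [← Fintype.card_coe]
      refine Fintype.card_congr {
        toFun := fun Y => ⟨Y.1.1, Finset.mem_filter.2 ⟨Y.1.2, Y.2⟩⟩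
        invFun := fun Y => ⟨⟨Y.1, (Finset.mem_filter.1 Y.2).1⟩, (Finset.mem_filter.1 Y.2).2⟩
        left_inv := fun _ => rfl
        right_inv := fun _ => rfl }
    rw [h3]
    exact Finset.card_filter_add_card_filter_not _
  omega

theorem laj_g (M : ℕ) : ∀ ε : ℝ, 0 < ε → ∃ R : ℕ, ∀ (U J : Type) [Fintype U] [Fintype J]
    [LinearOrder J] (U1 : Finset U) (J1 : Finset J), (∃ l, l ∉ J1) →
    ∀ (A : U → U → ZMod 2) (B : U → J → ZMod 2) (C : J → U → ZMod 2) (f : U → ZMod 2)
    (g : J → ZMod 2),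
    (∀ u ∈ U1, ∀ v ∈ U1, A u v = A v u) → (∀ u ∈ U1, ∀ k ∈ J1, B u k = C k u) →
    (∀ w : U → ZMod 2, (∀ u, u ∉ U1 → w u = 0) → (∃ u, w u ≠ 0) →
      ∃ k ∈ J1, ∑ u, w u * C k u ≠ 0) →
    ∀ (m : Fin M → Finset U) (A₀ : ℕ), 2 * U1.card + R ≤ A₀ → A₀ ≤ J1.card →
    (∀ k l, k ≠ l → A₀ ≤ (J1.filter fun j => dd (m k) (m l) C j ≠ 0).card) →
    |((univ.filter fun α : prs J1 → ZMod 2 => ∀ k,
      GdM U1 J1 (m k) A B C (Pool.Agent.Y703.CQ.ext α) f g).card : ℝ) / 2 ^ (prs J1).card -
        gi ^ M| ≤ ε := by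
  intro ε hε
  obtain ⟨R, hR⟩ := thmJ M ε hε
  refine ⟨R, ?_⟩
  intro U J _ _ _ U1 J1 hJ A B C f g hA hB hC m A₀ hA₀ hJ1 hm
  have e1 : finrank F (U1 → F) = U1.card := by
    rw [finrank_fintype_fun_eq_card, Fintype.card_coe]
  have e2 : finrank F (J1 → F) = J1.card := by
    rw [finrank_fintype_fun_eq_card, Fintype.card_coe]
  have e3 : finrank (ZMod 2) ((U1 → F) × (J1 → F)) = U1.card + J1.card := by
    rw [Module.finrank_prod, e1, e2]
  have e4 : finrank (ZMod 2) (LinearMap.ker (LinearMap.snd (ZMod 2) (U1 → F) (J1 → F))) =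
      U1.card := by
    have h1 := LinearMap.finrank_range_add_finrank_ker (LinearMap.snd (ZMod 2) (U1 → F) (J1 → F))
    rw [LinearMap.range_eq_top.2 (LinearMap.snd_surjective), finrank_top, e2, e3] at h1
    omega
  have key := hR ((U1 → F) × (J1 → F)) (LinearMap.ker (LinearMap.snd (ZMod 2) (U1 → F) (J1 → F)))
    (fun k => BM U1 J1 (m k) A B C f g) (2 * U1.card + (J1.card - A₀)) J1.card
    (fun k => BM_symm U1 J1 (m k) A B C f g hA) (fun k => nd_BM (m k) hC)
    (fun k l hkl => (finrank_JJ_le (m k) (m l)).trans (by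
      have := hm k l hkl
      omega)) (by rw [e4]; omega) (by rw [e3, e4]) (by omega)
  have hpos : 0 < ((YY (LinearMap.ker (LinearMap.snd (ZMod 2) (U1 → F) (J1 → F)))).card : ℝ) := by
    rw [Nat.cast_pos, Finset.card_pos]
    refine ⟨0, mem_YY.2 ⟨fun _ _ => rfl, fun _ _ => rfl⟩⟩
  obtain ⟨P, hP⟩ : ∃ P : LinearMap.BilinForm (ZMod 2) ((U1 → F) × (J1 → F)) → Prop,
      ∀ Y, P Y ↔ ∀ k, Pool.Agent.Y697.PP.Nd (BM U1 J1 (m k) A B C f g + Y) ⊤ :=
    ⟨_, fun _ => Iff.rfl⟩
  have h1 : |(((YY (LinearMap.ker (LinearMap.snd (ZMod 2) (U1 → F) (J1 → F)))).filter P).card : ℝ) /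
      ((YY (LinearMap.ker (LinearMap.snd (ZMod 2) (U1 → F) (J1 → F)))).card : ℝ) - gi ^ M| ≤ ε := by
    rw [div_sub' hpos.ne', abs_div, abs_of_pos hpos, div_le_iff₀ hpos, mul_comm _ (gi ^ M)]
    refine le_trans (le_of_eq ?_) key
    congr 4
    ext Y
    simp only [Finset.mem_filter, hP]
  rw [yy_card] at h1
  refine le_trans (le_of_eq ?_) h1
  congr 2
  rw [← Pool.Agent.Y759.CX.fr_comp (pa J1) (pa_surj J1 hJ)]
  unfold Pool.Agent.Y759.CX.fr
  have h6 : Nat.card (prs J1 → F) = 2 ^ (prs J1).card := by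
    rw [Nat.card_fun, Nat.card_eq_fintype_card, Nat.card_eq_fintype_card, ZMod.card,
      Fintype.card_coe]
  rw [h6, Nat.card_eq_fintype_card, Fintype.card_subtype]
  push_cast
  congr 3
  ext α
  simp only [Finset.mem_filter, hP, gdM_nd U1 J1 _ A B C f g hA hB α]

end main

end Pool.Agent.Y697.CJ
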